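import Mathlib
import Pool.Agent.W765.Hb9

/-! # MP_0ea415_nt: Littlewood's conjecture along geometric progressions `b^j β`, `α` quadratic

Let `α` be a real quadratic irrational and `b ≥ 2` an integer.

1. Let `ε, δ > 0`. There is `N₀` such that for every real `β` and every window of at least `N₀`
consecutive integers `j`, the proportion of the `j` for which
`liminf q ‖qα‖ ‖q b^j β‖ < ε` fails is at most `δ`; if `1, α, β` are linearly independent over `ℚ`
the same holds with `q b^j β` replaced by `q b^j β - γ`, for all real `γ` at once. (The inequality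
is required for infinitely many `q`.)

2. For every probability measure on `ℝ/ℤ` invariant under multiplication by `b`, almost every `β`
satisfies `liminf q ‖qα‖ ‖qβ‖ = 0`, and `liminf q ‖qα‖ ‖qβ - γ‖ = 0` for all real `γ` if `1, α, β`
are linearly independent over `ℚ`. -/

open Filter MeasureTheory

namespace Pool.Agent.Results.MP_0ea415_nt.GeometricOrbits

open Classical in
theorem result (α : ℝ) (hirr : Irrational α)
    (hq : ∃ A B C : ℤ, A ≠ 0 ∧ (A : ℝ) * α ^ 2 + B * α + C = 0) (b : ℕ) (hb : 2 ≤ b) :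
    (∀ ε : ℝ, 0 < ε → ∀ δ : ℝ, 0 < δ → ∃ N₀ : ℕ, ∀ β : ℝ, ∀ N ≥ N₀, ∀ T : ℕ,
      (((Finset.range N).filter (fun i : ℕ =>
        ¬ ∀ γ : ℝ, (γ = 0 ∨ LinearIndependent ℚ ![1, α, β]) →
          ∃ᶠ q : ℕ in atTop, (q : ℝ) * |q * α - round (q * α)|
            * |(q * ((b : ℝ) ^ (T + i) * β) - γ) - round (q * ((b : ℝ) ^ (T + i) * β) - γ)|
              < ε)).card : ℝ) ≤ δ * N) ∧
    (∀ μ : Measure (AddCircle (1 : ℝ)), IsProbabilityMeasure μ →
      MeasurePreserving (fun x : AddCircle (1 : ℝ) => b • x) μ μ →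
      ∀ᵐ x ∂μ, ∀ β : ℝ, (β : AddCircle (1 : ℝ)) = x →
        ∀ γ : ℝ, (γ = 0 ∨ LinearIndependent ℚ ![1, α, β]) →
          ∀ ε : ℝ, 0 < ε → ∃ᶠ q : ℕ in atTop, (q : ℝ) * |q * α - round (q * α)|
            * |(q * β - γ) - round (q * β - γ)| < ε) :=
  ⟨fun _ hε _ hδ => Pool.Agent.W765.Hb.lc_uniform hirr hq hb hε hδ,
    fun _ _ hμ => Pool.Agent.W765.Hb.lc_ae hirr hq hb hμ⟩

end Pool.Agent.Results.MP_0ea415_nt.GeometricOrbits
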