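import Pool.Agent.W13.LM.Scale

/-! # MP_0ea415_nt: mirror symmetric words in the code of a pair

Let `α = a₀ + 1 / (b 1 - 1 / (b 2 - ...))` be the backward continued fraction of `α`, with
denominators `q k`, and let `n k` be integers with `|q k β - n k| ≤ B`, for instance the nearest
integers.  The pair `(α, β)` has the code `(b (k + 1), z k)`, where
`z k = n (k + 2) + n k - b (k + 1) n (k + 1)`; for a digit expansion `β = ∑ x k (q k α - p k)` one
can take `z k = x (k + 1)`.  We show: if the code contains arbitrarily long mirror symmetric words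
(palindromes, or words for which the mirror image changes the signs of the `z k`), then the
Littlewood conjecture holds for `(α, β)`, and for all pairs `(r + s α, r' + s' β)` with rational
coefficients. So the code of a counterexample contains only palindromes of bounded length.  No
assumption is made on `α`, `β` and on the positions of the palindromes. -/

set_option autoImplicit false

namespace Pool.Agent.Results.MP_0ea415_nt.MirrorCodes

/-- Littlewood's conjecture for the pair `(α, β)` (the form of the frozen statement). -/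
def Littlewood (α β : ℝ) : Prop :=
  ∀ ε : ℝ, 0 < ε → ∀ N : ℕ, ∃ q : ℕ, N ≤ q ∧ 0 < q ∧
    (q : ℝ) * |(q : ℝ) * α - (round ((q : ℝ) * α) : ℝ)|
      * |(q : ℝ) * β - (round ((q : ℝ) * β) : ℝ)| < ε

/-- `α = a₀ + 1 / (b 1 - 1 / (b 2 - ...))` with denominators `q k` and remainders
`D k = q k α - p k`, `1 = D 0 > D 1 > D 2 > ... > 0`. -/
structure Backward (α : ℝ) (a₀ : ℤ) (b q : ℕ → ℤ) (D : ℕ → ℝ) : Prop where
  D_zero : D 0 = 1
  D_one : D 1 = α - a₀
  D_rec : ∀ k, D (k + 2) = b (k + 1) * D (k + 1) - D k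
  D_pos : ∀ k, 0 < D (k + 1)
  D_lt : ∀ k, D (k + 1) < D k
  q_zero : q 0 = 0
  q_one : q 1 = 1
  q_rec : ∀ k, q (k + 2) = b (k + 1) * q (k + 1) - q k

/-- the second component of the code -/
def code (b n : ℕ → ℤ) (k : ℕ) : ℤ := n (k + 2) + n k - b (k + 1) * n (k + 1)

/-- The letters `(b (k + 1), code b n k)` of the code with `|2 k - s| ≤ 2 K` are symmetric under
`k ↦ s - k`, up to a sign `σ` of the second component. -/
def Mirror (b n : ℕ → ℤ) (K s : ℕ) (σ : ℤ) : Prop :=
  2 * K ≤ s ∧ (σ = 1 ∨ σ = -1) ∧ ∀ i j : ℕ, i + j = s → i ≤ j + 2 * K → j ≤ i + 2 * K →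
    b (i + 1) = b (j + 1) ∧ code b n i = σ * code b n j

theorem result :
    -- every irrational number has a backward continued fraction
    (∀ α : ℝ, Irrational α →
      ∃ (a₀ : ℤ) (b q : ℕ → ℤ) (D : ℕ → ℝ), Backward α a₀ b q D) ∧
    -- main statement
    (∀ (α : ℝ) (a₀ : ℤ) (b q : ℕ → ℤ) (D : ℕ → ℝ), Backward α a₀ b q D → ∀ β B : ℝ,
      (∀ K : ℕ, ∃ (n : ℕ → ℤ) (s : ℕ) (σ : ℤ), (∀ k, |(q k : ℝ) * β - n k| ≤ B) ∧
        Mirror b n K s σ) →
      ∀ r s r' s' : ℚ, Littlewood (r + s * α) (r' + s' * β)) := by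
  constructor
  · intro α hα
    obtain ⟨a₀, b, q, D, E⟩ := Pool.Agent.W13.LM.exists_exp α hα
    exact ⟨a₀, b, q, D, E.D0, E.D1, E.Dr, E.Dp, E.Dl, E.q0, E.q1, E.qr⟩
  · intro α a₀ b q D E β B h r s r' s'
    have E' : Pool.Agent.W13.LM.Exp α a₀ b q D :=
      ⟨E.D_zero, E.D_one, E.D_rec, E.D_pos, E.D_lt, E.q_zero, E.q_one, E.q_rec⟩
    refine (Pool.Agent.W13.LM.mirror E' β B ?_).rat r s r' s'
    intro K
    obtain ⟨n, s, σ, h1, h2, h3, h4⟩ := h K
    exact ⟨n, s, σ, h2, h3, h1, h4⟩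

end Pool.Agent.Results.MP_0ea415_nt.MirrorCodes
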