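import Pool.Agent.W13.LM.Poly
import Pool.Agent.W13.LM.Scale

/-! # MP_0ea415_nt: Littlewood's conjecture for pairs coded by polynomial phases

Let `P_1, …, P_r` be real polynomials of positive even degrees whose leading coefficients are,
together with `1`, linearly independent over `ℚ`, and let `F : ℝ^r → ℤ × ℤ` be a function with
period `1` in every coordinate, with bounded second component, which is locally constant almost
everywhere (for instance a step function).  Put `(b k, x k) = F (P_1 k, …, P_r k)`.  We show that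
the Littlewood conjecture holds for `(α, β)` when the partial quotients of `α` in its backward
continued fraction `α = a₀ + 1 / (b 1 - 1 / (b 2 - ...))` are these `b k`, and
`β = ∑ x k D k`, where `D k = q k α - p k > 0` are the remainders.  It also holds for all pairs
`(r + s α, r' + s' β)` with rational coefficients.

Odd degrees are allowed too if `F` is invariant under the change of sign of the corresponding
coordinates and is locally constant at the points of one symmetric orbit; for `r = 1` and degree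
one these are the codings of rotations by symmetric partitions. -/

set_option autoImplicit false

open Polynomial Topology

namespace Pool.Agent.Results.MP_0ea415_nt.PolynomialPhases

/-- Littlewood's conjecture for the pair `(α, β)` (the form of the frozen statement). -/
def Littlewood (α β : ℝ) : Prop :=
  ∀ ε : ℝ, 0 < ε → ∀ N : ℕ, ∃ q : ℕ, N ≤ q ∧ 0 < q ∧
    (q : ℝ) * |(q : ℝ) * α - (round ((q : ℝ) * α) : ℝ)|
      * |(q : ℝ) * β - (round ((q : ℝ) * β) : ℝ)| < ε

theorem result (r : ℕ) (P : Fin r → ℝ[X]) (hdeg : ∀ i, 0 < (P i).natDegree)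
    -- the leading coefficients and `1` are linearly independent over the rationals
    (hlin : ∀ (h : Fin r → ℤ) (m : ℤ), ∑ i, (h i : ℝ) * (P i).leadingCoeff = m → h = 0)
    (F : (Fin r → ℝ) → ℤ × ℤ)
    (hper : ∀ (y : Fin r → ℝ) (m : Fin r → ℤ), F (fun i => y i + m i) = F y)
    (hbd : ∃ B : ℤ, ∀ y, |(F y).2| ≤ B)
    (hF : ((∀ i, Even (P i).natDegree) ∧ ∀ᵐ y : Fin r → ℝ, ∀ᶠ z in 𝓝 y, F z = F y) ∨
      ((∀ y, F (fun i => (-1) ^ (P i).natDegree * y i) = F y) ∧
        ∃ χ : Fin r → ℝ, (∀ i, Odd (P i).natDegree → ∃ m : ℤ, 2 * χ i = m) ∧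
          ∀ k : ℤ, k ≠ 0 →
            ∀ᶠ z in 𝓝 (fun i => χ i + (P i).leadingCoeff * (k : ℝ) ^ (P i).natDegree),
              F z = F (fun i => χ i + (P i).leadingCoeff * (k : ℝ) ^ (P i).natDegree)))
    -- the backward continued fraction `α = a₀ + 1 / (b 1 - 1 / (b 2 - ...))`
    (b x : ℕ → ℤ) (hcode : ∀ k : ℕ, (b k, x k) = F (fun i => (P i).eval (k : ℝ)))
    (α : ℝ) (a₀ : ℤ) (D : ℕ → ℝ) (hD0 : D 0 = 1) (hD1 : D 1 = α - a₀)
    (hD : ∀ k, D (k + 2) = b (k + 1) * D (k + 1) - D k)
    (hpos : ∀ k, 0 < D (k + 1)) (hlt : ∀ k, D (k + 1) < D k)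
    (β : ℝ) (hβ : β = ∑' k : ℕ, (x k : ℝ) * D k) :
    ∀ u v u' v' : ℚ, Littlewood (u + v * α) (u' + v' * β) := by
  intro u v u' v'
  -- the denominators
  let S : ℕ → ℤ × ℤ := fun k => Nat.rec (0, 1) (fun k v => (v.2, b (k + 1) * v.2 - v.1)) k
  have hS0 : S 0 = (0, 1) := rfl
  have hS : ∀ k, S (k + 1) = ((S k).2, b (k + 1) * (S k).2 - (S k).1) := fun k => rfl
  have E : Pool.Agent.W13.LM.Exp α a₀ b (fun k => (S k).1) D :=
    ⟨hD0, hD1, hD, hpos, hlt, by rw [hS0], by
      change (S (0 + 1)).1 = 1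
      rw [hS, hS0], fun k => by
      change (S (k + 1 + 1)).1 = b (k + 1) * (S (k + 1)).1 - (S k).1
      rw [hS (k + 1), hS k]⟩
  obtain ⟨B, hB⟩ := hbd
  have hflipχ : (∀ y, F (fun i => (-1) ^ (P i).natDegree * y i) = F y) ∧
        ∃ χ : Fin r → ℝ, (∀ i, Odd (P i).natDegree → ∃ m : ℤ, 2 * χ i = m) ∧
          ∀ k : ℤ, k ≠ 0 → Pool.Agent.W13.LM.LocConst F
            (fun i => χ i + (P i).leadingCoeff * (k : ℝ) ^ (P i).natDegree) := by
    rcases hF with ⟨heven, hae⟩ | h
    · refine ⟨fun y => ?_, ?_⟩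
      · congr 1
        funext i
        rw [(heven i).neg_one_pow, one_mul]
      · obtain ⟨χ, hχ⟩ := Pool.Agent.W13.LM.exists_chi P F hae
        exact ⟨χ, fun i hi => absurd (heven i) (Nat.not_even_iff_odd.2 hi), fun k _ => hχ k⟩
    · exact h
  obtain ⟨hflip, χ, hχ, hloc⟩ := hflipχ
  rw [hβ]
  refine (Pool.Agent.W13.LM.mirror_digits E x B ?_ ?_).rat u v u' v'
  · intro k
    have h1 := hB (fun i => (P i).eval (k : ℝ))
    rw [← hcode] at h1
    exact_mod_cast h1
  · intro K
    obtain ⟨c, hc, hsym⟩ := Pool.Agent.W13.LM.poly_mirror P hdeg hlin F hper hflip χ hχ hloc K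
    have hsym' : ∀ k : ℕ, k ≤ K → (b (c + k), x (c + k)) = (b (c - k), x (c - k)) := by
      intro k hk
      rw [hcode, hcode, hsym k hk]
    refine ⟨2 * (c - 1), 1, by omega, Or.inl rfl, ?_⟩
    intro i j hij hi hj
    rw [one_mul]
    rcases le_total i j with h | h
    · have h1 := hsym' (j + 1 - c) (by omega)
      rw [show c + (j + 1 - c) = j + 1 by omega, show c - (j + 1 - c) = i + 1 by omega] at h1
      rw [Prod.mk.injEq] at h1
      exact ⟨h1.1.symm, h1.2.symm⟩
    · have h1 := hsym' (i + 1 - c) (by omega)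
      rw [show c + (i + 1 - c) = i + 1 by omega, show c - (i + 1 - c) = j + 1 by omega] at h1
      rw [Prod.mk.injEq] at h1
      exact h1

end Pool.Agent.Results.MP_0ea415_nt.PolynomialPhases
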