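import Mathlib
import Pool.Agent.W765.Sk20

/-! # MP_0ea415_nt: Littlewood's conjecture along `b^i c^j β`, `α` arbitrary

Let `b, c ≥ 2` be multiplicatively independent integers (no relation `b^m = c^n` with `m > 0`).

1. Let `ε, δ > 0`. There is `N₀` such that for all real `α, β` and all `N ≥ N₀`: for all but at most
`δ N²` of the pairs `(i, j)`, `0 ≤ i, j < N`, there are for `γ = 0`, and if `β` is not in `ℚ + ℚα` for
every real `γ`, infinitely many `q` with `q ‖qα‖ ‖q b^i c^j β - γ‖ < ε`. (As `β` is arbitrary, the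
same holds for all square windows of pairs.)

2. For every Borel probability measure on `ℝ/ℤ` invariant under multiplication by `b` and by `c` and
for every real `α`, almost every `β` satisfies `liminf q ‖qα‖ ‖qβ - γ‖ = 0` for `γ = 0` and, if `β` is
not in `ℚ + ℚα`, for every real `γ`. -/

open Filter MeasureTheory

namespace Pool.Agent.Results.MP_0ea415_nt.TwoGenerators

open Classical in
theorem result (b c : ℕ) (hb : 2 ≤ b) (hc : 2 ≤ c) (hbc : ∀ m n : ℕ, b ^ m = c ^ n → m = 0) :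
    (∀ ε : ℝ, 0 < ε → ∀ δ : ℝ, 0 < δ → ∃ N₀ : ℕ, ∀ α β : ℝ, ∀ N ≥ N₀,
      (((Finset.range N ×ˢ Finset.range N).filter (fun p : ℕ × ℕ =>
        ¬ ∀ γ : ℝ, (γ = 0 ∨ ∀ r s : ℚ, β ≠ r + s * α) →
          ∃ᶠ q : ℕ in atTop, (q : ℝ) * |q * α - round (q * α)|
            * |q * ((b : ℝ) ^ p.1 * (c : ℝ) ^ p.2 * β) - γ
                - round (q * ((b : ℝ) ^ p.1 * (c : ℝ) ^ p.2 * β) - γ)| < ε)).card : ℝ)
        ≤ δ * N ^ 2) ∧
    (∀ μ : Measure (AddCircle (1 : ℝ)), IsProbabilityMeasure μ →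
      MeasurePreserving (fun x : AddCircle (1 : ℝ) => b • x) μ μ →
      MeasurePreserving (fun x : AddCircle (1 : ℝ) => c • x) μ μ →
      ∀ α : ℝ, ∀ᵐ x ∂μ, ∀ β : ℝ, (β : AddCircle (1 : ℝ)) = x →
        ∀ γ : ℝ, (γ = 0 ∨ ∀ r s : ℚ, β ≠ r + s * α) →
        ∀ ε : ℝ, 0 < ε → ∃ᶠ q : ℕ in atTop, (q : ℝ) * |q * α - round (q * α)|
          * |q * β - γ - round (q * β - γ)| < ε) := by
  have hirr := Pool.Agent.W765.Sk.irr_of_indep hb hc hbc
  constructor
  · intro ε hε δ hδ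
    obtain ⟨N₀, hN₀⟩ := Pool.Agent.W765.Sk.full_two hb hc hirr hε hδ
    refine ⟨N₀, fun α β N hN => le_trans ?_ (hN₀ α (β : AddCircle (1 : ℝ)) N hN)⟩
    refine Nat.cast_le.2 (Finset.card_le_card ?_)
    intro p hp
    rw [Finset.mem_filter] at hp ⊢
    refine ⟨hp.1, fun hfull => hp.2 fun γ hγ => ?_⟩
    have he : (b ^ p.1 * c ^ p.2) • (β : AddCircle (1 : ℝ)) =
        (((b : ℝ) ^ p.1 * (c : ℝ) ^ p.2 * β : ℝ) : AddCircle (1 : ℝ)) := by
      rw [← Pool.Agent.W765.Sk.coe_nmul]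
      push_cast
      rfl
    rw [he] at hfull
    rcases hγ with rfl | hγ
    · exact Pool.Agent.W765.Sk.lc_real0 hfull.1
    · exact Pool.Agent.W765.Sk.lci_real (hfull.2 (Pool.Agent.W765.Sk.ind_of_real hγ) γ)
  · intro μ hμ hμb hμc α
    have h : ∀ᵐ x ∂μ, ∀ n : ℕ, Pool.Agent.W765.Sk.LC α (1 / ((n : ℝ) + 1)) x := by
      rw [ae_all_iff]
      intro n
      exact Pool.Agent.W765.Sk.lc_ae_two hb hc hirr hμb hμc α (by positivity)
    filter_upwards [h, Pool.Agent.W765.Sk.lci_ae_two hb hc hirr hμb hμc α] with x hx hx' β hβ γ hγ ε hε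
    rcases hγ with rfl | hγ
    · obtain ⟨n, hn⟩ := exists_nat_one_div_lt hε
      have h1 := hx n
      rw [← hβ] at h1
      exact (Pool.Agent.W765.Sk.lc_real0 h1).mono fun q hq => hq.trans hn
    · rw [← hβ] at hx'
      exact Pool.Agent.W765.Sk.lci_real (hx' (Pool.Agent.W765.Sk.ind_of_real hγ) γ ε hε)

end Pool.Agent.Results.MP_0ea415_nt.TwoGenerators
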